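import Pool.Agent.Lib.helper21.PTInt

/-! More closure lemmas for polynomial-time computability: unary division, remainder, fixed powers,
conversion of a bounded binary integer to unary, and raw words. -/

namespace Pool.Agent.Lib.helper26

open Pool.Agent.Lib.helper21 Function

variable {α β γ : Type} [Enc α] [Enc β] [Enc γ]

theorem length_filter_lt (K x : ℕ) :
    ((List.range K).filter fun t => decide (t < x)).length = min x K := by
  induction K with
  | zero => simp
  | succ K ih =>
    rw [List.range_succ, List.filter_append, List.length_append, ih]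
    by_cases h : K < x <;> simp [h] <;> omega

@[fun_prop] theorem PT_div {f g : α → ℕ} (hf : PT f) (hg : PT g) : PT fun a => f a / g a := by
  refine PT.of_eq (f := fun a => cond (decide (g a = 0)) 0
    ((List.range (f a)).filter fun t => decide ((t + 1) * g a ≤ f a)).length) (by fun_prop)
    fun a => ?_
  by_cases h : g a = 0
  · simp [h]
  · have e : (fun t => decide ((t + 1) * g a ≤ f a)) = fun t => decide (t < f a / g a) := by
      funext t
      rw [decide_eq_decide, ← Nat.le_div_iff_mul_le (Nat.pos_of_ne_zero h)]
      omega
    rw [e, length_filter_lt]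
    simp [h, Nat.div_le_self]

@[fun_prop] theorem PT_mod {f g : α → ℕ} (hf : PT f) (hg : PT g) : PT fun a => f a % g a :=
  PT.of_eq (f := fun a => f a - g a * (f a / g a)) (by fun_prop) fun a => by
    have := Nat.div_add_mod (f a) (g a)
    omega

@[fun_prop] theorem PT_pow {f : α → ℕ} (hf : PT f) (n : ℕ) : PT fun a => f a ^ n := by
  induction n with
  | zero => exact PT.const 1
  | succ n ih => exact ih.mul hf

@[fun_prop] theorem PT_replicate {f : α → ℕ} {g : α → β} (hf : PT f) (hg : PT g) :
    PT fun a => List.replicate (f a) (g a) :=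
  PT.of_eq (f := fun a => (List.range (f a)).map fun _ => g a) (by fun_prop) fun a => by simp

theorem PT_eval {f : α → ℕ} (hf : PT f) (p : Polynomial ℕ) : PT fun a => p.eval (f a) := by
  induction p using Polynomial.induction_on' with
  | add p q hp hq => simpa using hp.add hq
  | monomial k c =>
    simp only [Polynomial.eval_monomial]
    fun_prop

/-- The integer `z`, cut off at `K`, in unary. -/
def toU (K : ℕ) (z : ℤ) : ℕ := ((List.range K).filter fun t : ℕ => decide ((t : ℤ) < z)).length

theorem toU_eq {K x : ℕ} (h : x ≤ K) : toU K x = x := by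
  simp only [toU, Nat.cast_lt, length_filter_lt]
  omega

@[fun_prop] theorem PT_toU {f : α → ℕ} {g : α → ℤ} (hf : PT f) (hg : PT g) :
    PT fun a => toU (f a) (g a) := by
  unfold toU; fun_prop

/-- Words encoded by themselves. -/
structure Raw where
  w : List Bool

instance : Enc Raw := ⟨Raw.w⟩

theorem sz_raw (r : Raw) : sz r = r.w.length := rfl

theorem PT_toRaw : PT fun l : List Bool => Raw.mk l := by
  have h1 : PT fun p : List Bool × Raw × Bool => Raw.mk (p.2.2 :: p.2.1.w) :=
    Rl.consBit (b := fun p : List Bool × Raw × Bool => p.2.2)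
      (show PT fun p : List Bool × Raw × Bool => p.2.2 by fun_prop)
      (show PT fun p : List Bool × Raw × Bool => p.2.1 by fun_prop)
  refine (PT.foldl_add (f := fun _ (s : Raw) (b : Bool) => Raw.mk (b :: s.w))
    (l := fun l : List Bool => l.reverse) h1 (by fun_prop) (PT.const ⟨[]⟩) (fun _ => 1)
    (Bd.const _ _) fun a s x => by simp [sz_raw]).of_eq fun l => ?_
  rw [List.foldl_reverse]
  induction l with
  | nil => rfl
  | cons b l ih => rw [List.foldr_cons, ih]

theorem PT_ofRaw : PT fun r : Raw => r.w := by
  have h1 : PT fun p : Raw × Raw × List Bool => Raw.mk p.2.1.w.tail :=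
    Rl.tail (show PT fun p : Raw × Raw × List Bool => p.2.1 by fun_prop)
  have h2 : PT fun p : Raw × Raw × List Bool => p.2.1.w.head?.getD false :=
    Rl.head (show PT fun p : Raw × Raw × List Bool => p.2.1 by fun_prop) fun o => o.getD false
  have h3 := PT.iterate_add (f := fun (_ : Raw) (s : Raw × List Bool) =>
      (Raw.mk s.1.w.tail, s.1.w.head?.getD false :: s.2)) (n := fun r => sz r)
    (init := fun r => (r, [])) (h1.pair (h2.cons (by fun_prop))) (by fun_prop) (by fun_prop)
    (fun _ => 4) (Bd.const _ _) fun a s => by
      rw [sz_prod s]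
      simp only [sz_pair, sz_cons, sz_bool, sz_raw, List.length_tail]
      omega
  refine h3.snd.reverse.of_eq fun r => ?_
  have key : ∀ (w acc : List Bool), ((fun s : Raw × List Bool =>
      (Raw.mk s.1.w.tail, s.1.w.head?.getD false :: s.2))^[w.length] (⟨w⟩, acc)).2 =
      w.reverse ++ acc := by
    intro w
    induction w with
    | nil => intro acc; rfl
    | cons b w ih =>
      intro acc
      rw [List.length_cons, iterate_succ_apply]
      simpa using ih (b :: acc)
  simp only [sz_raw]
  rw [key r.w []]
  simp

omit [Enc β] in
/-- A polynomial-time map between lists of bits, read and written as raw words. -/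
theorem PT_toTM2 {f : List Bool → β} {c : β → List Bool} (h : PT fun x => c (f x)) :
    Nonempty (Turing.TM2ComputableInPolyTime id c f) :=
  Rl.toTM2 (Rl.reindex (PT_toRaw.comp (h.comp PT_ofRaw)) Raw.mk)

end Pool.Agent.Lib.helper26
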