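import Pool.Agent.Lib.helper26.PTExtra

/-! Polynomial-time reduction from satisfiability of formulas in conjunctive normal form to
three-colouring of a graph given by its list of edges. -/

namespace Pool.Agent.Lib.helper26

open Pool.Agent.Lib.helper21

/-- Vertex with a tag below seven and two indices. -/
def vx (t x y : ℕ) : ℕ := t + 7 * Nat.pair x y

/-- Vertex of a literal. -/
def lit (x : ℕ) (b : Bool) : ℕ := vx 3 x (cond b 1 0)

/-- Edges for position `r` of clause `j`, which holds the literal `l`. -/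
def litEdges (j r : ℕ) (l : ℕ × Bool) : List (ℕ × ℕ) :=
  [(vx 5 j r, vx 4 j r), (vx 6 j r, lit l.1 l.2), (vx 5 j r, vx 6 j r), (vx 5 j r, vx 4 j (r + 1)),
    (vx 6 j r, vx 4 j (r + 1)), (lit l.1 true, lit l.1 false), (lit l.1 true, vx 2 0 0),
    (lit l.1 false, vx 2 0 0)]

/-- Edges for clause number `j`. -/
def clauseEdges (j : ℕ) (c : List (ℕ × Bool)) : List (ℕ × ℕ) :=
  [(vx 4 j 0, vx 0 0 0), (vx 4 j 0, vx 2 0 0), (vx 4 j c.length, vx 1 0 0)] ++
    (List.range c.length).flatMap fun r => litEdges j r (c.getD r (0, false))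

/-- The graph of a formula. -/
def satEdges (φ : List (List (ℕ × Bool))) : List (ℕ × ℕ) :=
  [(vx 0 0 0, vx 1 0 0), (vx 0 0 0, vx 2 0 0), (vx 1 0 0, vx 2 0 0)] ++
    (List.range φ.length).flatMap fun j => clauseEdges j (φ.getD j [])

theorem sat_of_col {φ : List (List (ℕ × Bool))} (χ : ℕ → ZMod 3)
    (h : ∀ e ∈ satEdges φ, χ e.1 ≠ χ e.2) : ∃ v : ℕ → Bool, ∀ c ∈ φ, ∃ l ∈ c, v l.1 = l.2 := by
  refine ⟨fun x => decide (χ (lit x true) = χ (vx 0 0 0)), fun c hc => ?_⟩
  by_contra hn
  push Not at hn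
  obtain ⟨j, hj, rfl⟩ := List.getElem_of_mem hc
  have h1 := h (vx 0 0 0, vx 1 0 0) (by simp [satEdges])
  have h2 := h (vx 0 0 0, vx 2 0 0) (by simp [satEdges])
  have h3 := h (vx 1 0 0, vx 2 0 0) (by simp [satEdges])
  have hc : ∀ e ∈ clauseEdges j φ[j], χ e.1 ≠ χ e.2 := fun e he => h e <|
    List.mem_append_right _ (List.mem_flatMap.2 ⟨j, List.mem_range.2 hj, by
      rwa [List.getD_eq_getElem _ _ hj]⟩)
  generalize φ[j] = w at hn hc
  have third : ∀ t f n x : ZMod 3, t ≠ f → t ≠ n → f ≠ n → x ≠ t → x ≠ n → x = f := by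
    have : ∀ t f n x : ZMod 3, t = f ∨ t = n ∨ f = n ∨ x = t ∨ x = n ∨ x = f := by decide
    intro t f n x
    have := this t f n x
    tauto
  have key : ∀ r ≤ w.length, χ (vx 4 j r) = χ (vx 1 0 0) := by
    intro r hr
    induction r with
    | zero =>
      exact third _ _ _ _ h1 h2 h3 (hc (vx 4 j 0, vx 0 0 0) (by simp [clauseEdges]))
        (hc (vx 4 j 0, vx 2 0 0) (by simp [clauseEdges]))
    | succ r ih =>
      have ih := ih (by omega)
      have hl : ∀ e ∈ litEdges j r w[r], χ e.1 ≠ χ e.2 := fun e he => hc e <|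
        List.mem_append_right _ (List.mem_flatMap.2 ⟨r, List.mem_range.2 hr, by
          rwa [List.getD_eq_getElem _ _ hr]⟩)
      have hf := hn w[r] (List.getElem_mem _)
      generalize w[r] = l at hl hf
      obtain ⟨x, b⟩ := l
      simp only [litEdges, List.forall_mem_cons] at hl
      obtain ⟨e1, e2, e3, e4, e5, e6, e7, e8, -⟩ := hl
      have e9 : χ (lit x b) = χ (vx 1 0 0) := by
        cases b
        · exact third _ _ _ _ h1 h2 h3 (by
            have : χ (lit x true) = χ (vx 0 0 0) := by simpa using hf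
            rw [← this]; exact e6.symm) e8
        · exact third _ _ _ _ h1 h2 h3 (by simpa using hf) e7
      rw [ih] at e1
      rw [e9] at e2
      exact third _ _ _ _ e1 e3 e2.symm e4.symm e5.symm
  exact hc (vx 4 j w.length, vx 1 0 0) (by simp [clauseEdges]) (key _ le_rfl)

theorem col_of_sat {φ : List (List (ℕ × Bool))} (v : ℕ → Bool)
    (h : ∀ c ∈ φ, ∃ l ∈ c, v l.1 = l.2) : ∃ χ : ℕ → ZMod 3, ∀ e ∈ satEdges φ, χ e.1 ≠ χ e.2 := by
  let tr : ℕ → ℕ → Bool := fun j r => v ((φ.getD j []).getD r (0, false)).1 ==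
    ((φ.getD j []).getD r (0, false)).2
  let acc : ℕ → ℕ → Bool := fun j r => (List.range r).any (tr j)
  let g : ℕ → ℕ → ℕ → ZMod 3 := fun t x y =>
    [0, 1, 2, cond (v x == decide (y = 1)) 0 1, cond (acc x y) 0 1,
      cond (acc x (y + 1)) (cond (tr x y) 2 1) 0, cond (tr x y) 1 2].getD t 0
  let χ : ℕ → ZMod 3 := fun u => g (u % 7) (u / 7).unpair.1 (u / 7).unpair.2
  have hχ : ∀ t < 7, ∀ x y, χ (vx t x y) = g t x y := by
    intro t ht x y
    have e1 : vx t x y % 7 = t := by unfold vx; omega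
    have e2 : vx t x y / 7 = Nat.pair x y := by unfold vx; omega
    simp only [χ, e1, e2, Nat.unpair_pair]
  have h0 : χ (vx 0 0 0) = 0 := hχ 0 (by norm_num) _ _
  have h1 : χ (vx 1 0 0) = 1 := hχ 1 (by norm_num) _ _
  have h2 : χ (vx 2 0 0) = 2 := hχ 2 (by norm_num) _ _
  have h3 : ∀ x b, χ (lit x b) = cond (v x == b) 0 1 := fun x b => by
    rw [lit, hχ 3 (by norm_num)]; cases b <;> rfl
  have h4 : ∀ x y, χ (vx 4 x y) = cond (acc x y) 0 1 := hχ 4 (by norm_num)
  have h5 : ∀ x y, χ (vx 5 x y) = cond (acc x (y + 1)) (cond (tr x y) 2 1) 0 := hχ 5 (by norm_num)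
  have h6 : ∀ x y, χ (vx 6 x y) = cond (tr x y) 1 2 := hχ 6 (by norm_num)
  have h7 : ∀ x y, acc x (y + 1) = (acc x y || tr x y) := fun x y => by
    simp [acc, List.range_succ]
  refine ⟨χ, ?_⟩
  simp only [satEdges, clauseEdges, List.forall_mem_append, List.forall_mem_flatMap, List.mem_range]
  refine ⟨?_, fun j hj => ⟨?_, fun r _ => ?_⟩⟩
  · simp only [List.forall_mem_cons, List.not_mem_nil, false_imp_iff, implies_true, h0, h1, h2]
    decide
  · have e1 : acc j 0 = false := rfl
    have e2 : acc j (φ.getD j []).length = true := by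
      obtain ⟨l, hl, hv⟩ := h φ[j] (List.getElem_mem _)
      obtain ⟨r, hr, rfl⟩ := List.getElem_of_mem hl
      simp only [acc, tr, List.any_eq_true, List.mem_range, beq_iff_eq, List.getD_eq_getElem _ _ hj]
      exact ⟨r, hr, by rw [List.getD_eq_getElem _ _ hr, hv]⟩
    simp only [List.forall_mem_cons, List.not_mem_nil, false_imp_iff, implies_true, h0, h1, h2,
      h4, e1, e2]
    decide
  · have e1 : (v ((φ.getD j []).getD r (0, false)).1 == ((φ.getD j []).getD r (0, false)).2) =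
      tr j r := rfl
    simp only [litEdges, List.forall_mem_cons, List.not_mem_nil, false_imp_iff, implies_true, h2, h3,
      h4, h5, h6, h7, e1]
    generalize acc j r = a
    generalize tr j r = b
    generalize v ((φ.getD j []).getD r (0, false)).1 = c
    cases a <;> cases b <;> cases c <;> decide

variable {α : Type} [Enc α]

@[fun_prop] theorem PT_pair {f g : α → ℕ} (hf : PT f) (hg : PT g) :
    PT fun a => Nat.pair (f a) (g a) :=
  PT.of_eq (f := fun a => cond (decide (f a < g a)) (g a * g a + f a) (f a * f a + f a + g a))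
    (by fun_prop) fun a => by simp [Nat.pair]

@[fun_prop] theorem PT_vx {t f g : α → ℕ} (ht : PT t) (hf : PT f) (hg : PT g) :
    PT fun a => vx (t a) (f a) (g a) := by
  unfold vx; fun_prop

@[fun_prop] theorem PT_lit {f : α → ℕ} {g : α → Bool} (hf : PT f) (hg : PT g) :
    PT fun a => lit (f a) (g a) := by
  unfold lit; fun_prop

attribute [local irreducible] vx lit

@[fun_prop] theorem PT_litEdges {f g : α → ℕ} {l : α → ℕ × Bool} (hf : PT f) (hg : PT g)
    (hl : PT l) : PT fun a => litEdges (f a) (g a) (l a) := by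
  unfold litEdges; fun_prop

@[fun_prop] theorem PT_clauseEdges {f : α → ℕ} {c : α → List (ℕ × Bool)} (hf : PT f) (hc : PT c) :
    PT fun a => clauseEdges (f a) (c a) := by
  unfold clauseEdges; fun_prop

@[fun_prop] theorem PT_satEdges {φ : α → List (List (ℕ × Bool))} (h : PT φ) :
    PT fun a => satEdges (φ a) := by
  unfold satEdges; fun_prop

/-- A bound for the vertices of a list of edges. -/
def vbound (E : List (ℕ × ℕ)) : ℕ := (E.map fun e => e.1 + e.2).sum + 1

theorem lt_vbound {E : List (ℕ × ℕ)} : ∀ e ∈ E, e.1 < vbound E ∧ e.2 < vbound E := by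
  intro e he
  have : e.1 + e.2 ≤ (E.map fun e => e.1 + e.2).sum :=
    List.single_le_sum (by simp) _ (List.mem_map.2 ⟨e, he, rfl⟩)
  unfold vbound
  omega

@[fun_prop] theorem PT_vbound {E : α → List (ℕ × ℕ)} (h : PT E) : PT fun a => vbound (E a) := by
  unfold vbound; fun_prop

theorem sat_iff_col (φ : List (List (ℕ × Bool))) :
    (∃ v : ℕ → Bool, ∀ c ∈ φ, ∃ l ∈ c, v l.1 = l.2) ↔
      ∃ χ : ℕ → ZMod 3, ∀ e ∈ satEdges φ, χ e.1 ≠ χ e.2 :=
  ⟨fun ⟨v, h⟩ => col_of_sat v h, fun ⟨χ, h⟩ => sat_of_col χ h⟩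

end Pool.Agent.Lib.helper26
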